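import Pool.Agent.H17CV.Uni

/-!
# M2: the endomorphism algebra of the universal sheaf is an object of `art_1`
-/

set_option autoImplicit false

open LaurentPolynomial

universe u

namespace Pool.Agent.DWC

variable {k : Type u} [Field k] {X : Nbhd k} {Q : Sh X} {g : Q.M}

theorem cv_layer (h : Represents Q g) {P₂ : Submodule X.B Q.M} {r : ℕ}
    {θ : P₂ →+ (Fin r → k[T;T⁻¹])}
    (h1 : ∀ (b : X.B) (p : P₂) (i : Fin r), θ (b • p) i = X.res b * θ p i)
    (h4 : ∀ f : Fin r → k[T;T⁻¹], (∃ p : P₂, (p : Q.M) ∈ Q.M₀ ∧ θ p = f) ↔ ∀ i, f i ∈ Reg0 k)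
    (h5 : ∀ f : Fin r → k[T;T⁻¹], (∃ p : P₂, (p : Q.M) ∈ Q.M₁ ∧ θ p = f) ↔
      ∀ i, f i ∈ RegInf k 0) (u : cvEnd Q) (hu : ∀ m, (u : Module.End X.B Q.M) m ∈ P₂)
    (m : Q.M) (l : Fin r) :
    θ ⟨(u : Module.End X.B Q.M) m, hu m⟩ l =
      C ((θ ⟨(u : Module.End X.B Q.M) g, hu g⟩ l).coeff 0) * cvPi h m := by
  let φ : Q.M →ₗ[X.B] (OC X).M :=
    { toFun := fun m => θ ⟨(u : Module.End X.B Q.M) m, hu m⟩ l
      map_add' := fun a b => by
        have : (⟨(u : Module.End X.B Q.M) (a + b), hu (a + b)⟩ : P₂) =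
            ⟨(u : Module.End X.B Q.M) a, hu a⟩ + ⟨(u : Module.End X.B Q.M) b, hu b⟩ :=
          Subtype.ext (map_add _ a b)
        rw [this, map_add]
        rfl
      map_smul' := fun b a => by
        have : (⟨(u : Module.End X.B Q.M) (b • a), hu (b • a)⟩ : P₂) =
            b • ⟨(u : Module.End X.B Q.M) a, hu a⟩ := Subtype.ext (map_smul _ b a)
        rw [this, h1]
        rfl }
  have hφ : IsSheafMap φ :=
    ⟨fun m hm => (h4 _).1 ⟨⟨(u : Module.End X.B Q.M) m, hu m⟩, u.2.1 m hm, rfl⟩ l,
      fun m hm => (h5 _).1 ⟨⟨(u : Module.End X.B Q.M) m, hu m⟩, u.2.2 m hm, rfl⟩ l⟩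
  exact cv_eq_smul_tau h φ hφ m

theorem cv_nilp (h : Represents Q g) : ∃ N : ℕ, aug (cvEps h) ^ N = ⊥ := by
  obtain ⟨L, P, h0, hN, hP⟩ := h.1
  refine ⟨L, ?_⟩
  have key : ∀ i ≤ L, ∀ u ∈ aug (cvEps h) ^ i, ∀ m, (u : Module.End X.B Q.M) m ∈ P (L - i) := by
    intro i
    induction i with
    | zero => intro _ u _ m; rw [Nat.sub_zero, hN]; trivial
    | succ i ih =>
      intro hi u hu
      have ih := ih (by omega)
      obtain ⟨j, hj⟩ : ∃ j, L - i = j + 1 := ⟨L - (i + 1), by omega⟩
      have hj' : L - (i + 1) = j := by omega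
      rw [hj] at ih
      rw [hj']
      obtain ⟨hle, r, θ, h1, -, h3, h4, h5⟩ := hP j (by omega)
      rw [pow_succ] at hu
      induction hu using Submodule.mul_induction_on' with
      | mem_mul_mem a ha b hb =>
        intro m
        change (a : Module.End X.B Q.M) ((b : Module.End X.B Q.M) m) ∈ P j
        refine (h3 ⟨_, ih a ha _⟩).1 ?_
        funext l
        rw [cv_layer h h1 h4 h5 a (ih a ha) _ l, cvPi_end' h b]
        have hb' : cvEps h b = 0 := hb
        rw [hb', map_zero (C (R := k)), zero_mul, mul_zero]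
        rfl
      | add a _ b _ ha hb => exact fun m => add_mem (ha m) (hb m)
  rw [eq_bot_iff]
  intro u hu
  rw [Submodule.mem_bot]
  refine Subtype.ext (LinearMap.ext fun m => ?_)
  have := key L le_rfl u hu m
  rw [Nat.sub_self, h0, Submodule.mem_bot] at this
  exact this

theorem cv_fin (h : Represents Q g) : Module.Finite k (cvEnd Q) := by
  obtain ⟨L, P, h0, hN, hP⟩ := h.1
  let N : ℕ → Submodule k (cvEnd Q) := fun i =>
    { carrier := {u | ∀ m, (u : Module.End X.B Q.M) m ∈ P (L - i)}
      zero_mem' := fun _ => zero_mem _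
      add_mem' := fun ha hb m => add_mem (ha m) (hb m)
      smul_mem' := fun c u hu m => by
        rw [cvEnd_smul]
        exact Submodule.smul_mem _ _ (hu m) }
  have key : ∀ d ≤ L, Module.Finite k (N (L - d)) := by
    intro d
    induction d with
    | zero =>
      intro _
      have : N (L - 0) = ⊥ := by
        rw [eq_bot_iff]
        intro u hu
        rw [Submodule.mem_bot]
        refine Subtype.ext (LinearMap.ext fun m => ?_)
        have := hu m
        rw [Nat.sub_zero, Nat.sub_self, h0, Submodule.mem_bot] at this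
        exact this
      rw [this]
      infer_instance
    | succ d ih =>
      intro hd
      have ih := ih (by omega)
      obtain ⟨hle, r, θ, h1, -, h3, h4, h5⟩ := hP d (by omega)
      have e1 : L - (L - (d + 1)) = d + 1 := by omega
      have e2 : L - (L - d) = d := by omega
      have hmem : ∀ u ∈ N (L - (d + 1)), ∀ m, (u : Module.End X.B Q.M) m ∈ P (d + 1) := by
        intro u hu m
        have := hu m
        rwa [e1] at this
      let φ : N (L - (d + 1)) →ₗ[k] (Fin r → k) :=
        { toFun := fun u l => (θ ⟨(u.1 : Module.End X.B Q.M) g, hmem u.1 u.2 g⟩ l).coeff 0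
          map_add' := fun a b => by
            funext l
            have : (⟨((a + b).1 : Module.End X.B Q.M) g, hmem (a + b).1 (a + b).2 g⟩ : P (d + 1)) =
                ⟨(a.1 : Module.End X.B Q.M) g, hmem a.1 a.2 g⟩ +
                  ⟨(b.1 : Module.End X.B Q.M) g, hmem b.1 b.2 g⟩ := rfl
            rw [this, map_add]
            rfl
          map_smul' := fun c a => by
            funext l
            have : (⟨((c • a).1 : Module.End X.B Q.M) g, hmem (c • a).1 (c • a).2 g⟩ :
                P (d + 1)) = algebraMap k X.B c •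
                  ⟨(a.1 : Module.End X.B Q.M) g, hmem a.1 a.2 g⟩ := rfl
            rw [this, h1, AlgHom.commutes]
            exact cv_C_mul_coeff c _ 0 }
      have hker : ∀ u ∈ LinearMap.ker φ, (u : cvEnd Q) ∈ N (L - d) := by
        intro u hu m
        rw [e2]
        refine (h3 ⟨_, hmem u.1 u.2 m⟩).1 ?_
        funext l
        rw [cv_layer h h1 h4 h5 u.1 (hmem u.1 u.2) m l]
        have : (θ ⟨(u.1 : Module.End X.B Q.M) g, hmem u.1 u.2 g⟩ l).coeff 0 = 0 :=
          congrFun (LinearMap.mem_ker.1 hu) l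
        rw [this, map_zero (C (R := k)), zero_mul]
        rfl
      have hf : Module.Finite k (LinearMap.ker φ) := by
        let ψ : LinearMap.ker φ →ₗ[k] N (L - d) :=
          { toFun := fun u => ⟨(u : N (L - (d + 1))), hker u.1 u.2⟩
            map_add' := fun _ _ => rfl
            map_smul' := fun _ _ => rfl }
        refine Module.Finite.of_injective ψ fun a b hab => ?_
        have := congrArg (fun x : N (L - d) => (x : cvEnd Q)) hab
        exact Subtype.ext (Subtype.ext this)
      refine ⟨Submodule.fg_of_fg_map_of_fg_inf_ker φ ?_ ?_⟩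
      · exact IsNoetherian.noetherian _
      · rw [top_inf_eq]
        exact (Submodule.fg_top _).1 hf.1
  have h1 := key L le_rfl
  have h2 : N (L - L) = ⊤ := by
    rw [eq_top_iff]
    intro u _ m
    rw [Nat.sub_self, Nat.sub_zero, hN]
    trivial
  rw [h2] at h1
  exact ⟨(Submodule.fg_top _).1 h1.1⟩

theorem cv_isArt (h : Represents Q g) : IsArt (cvEps h) := ⟨cv_fin h, cv_nilp h⟩

end Pool.Agent.DWC
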