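import Pool.Agent.H17CV.M3
import Pool.Agent.H17CV.Art

/-!
# PART 3: a representing sheaf gives a finite-dimensional versal deformation
-/

set_option autoImplicit false

open LaurentPolynomial

universe u

namespace Pool.Agent.DWC

variable {k : Type u} [Field k] {X : Nbhd k} {Q : Sh X} {g : Q.M}

theorem finVersal_of_represents (h : Represents Q g) : FinVersal X :=
  ⟨cvEnd Q, inferInstance, inferInstance, cvEps h, cvDef h, cv_isArt h,
    fun _ _ _ _ hε D => cv_induced h hε D⟩

end Pool.Agent.DWC
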