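import Pool.Agent.DWC.NCDef

/-!
# The converse: a sheaf which represents the global sections of the deformations of `𝒪_C`
-/

set_option autoImplicit false

open LaurentPolynomial

universe u

namespace Pool.Agent.DWC

variable {k : Type u} [Field k] {X : Nbhd k}

/-- a map of sheaves -/
def IsSheafMap {E F : Sh X} (u : E.M →ₗ[X.B] F.M) : Prop :=
  (∀ m ∈ E.M₀, u m ∈ F.M₀) ∧ ∀ m ∈ E.M₁, u m ∈ F.M₁

/-- `H⁰(E(-1)) = H¹(E(-1)) = 0`; here `E(-1)` has the sections `M₀` over `U₀` and `w M₁` over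
`U₁`. -/
def AcycT (E : Sh X) : Prop :=
  (∀ b ∈ E.M₁, (X.w : X.B) • b ∈ E.M₀ → b = 0) ∧
    ∀ m : E.M, ∃ a ∈ E.M₀, ∃ b ∈ E.M₁, m = a + (X.w : X.B) • b

/-- `(Q, g)` represents the functor `E ↦ H⁰(E)` on the iterated extensions of `𝒪_C`, and `Q` is
an iterated extension of `𝒪_C`. -/
def Represents (Q : Sh X) (g : Q.M) : Prop :=
  (∃ L : ℕ, Loewy Q 0 L) ∧ g ∈ Q.M₀ ∧ g ∈ Q.M₁ ∧
    ∀ E : Sh X, (∃ n : ℕ, Loewy E 0 n) → AcycT E →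
      (∃ n : ℕ, ∀ c ∈ RingHom.ker X.res.toRingHom ^ n, ∀ m : E.M, c • m = 0) → ∀ e ∈ E.M₀, e ∈ E.M₁ →
        ∃! u : Q.M →ₗ[X.B] E.M, IsSheafMap u ∧ u g = e

end Pool.Agent.DWC
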