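import Pool.Agent.H17CV.Defs

/-!
# M1: the charts of an iterated extension of `𝒪_C`

`E(U₀) = ⊕ xⁿ H⁰(E)`, `E(U₁) = ⊕ wⁿ H⁰(E)`, `E(U₀ ∩ U₁) = ⊕ xⁿ H⁰(E)` (`n ∈ ℤ`).
-/

set_option autoImplicit false

open LaurentPolynomial

universe u

namespace Pool.Agent.DWC

variable {k : Type u} [Field k] {X : Nbhd k}

theorem cv_coeff_C_mul_T (a : k) (n m : ℤ) :
    (C a * T n : k[T;T⁻¹]).coeff m = if n = m then a else 0 := by
  rw [← single_eq_C_mul_T, AddMonoidAlgebra.coeff_single, Finsupp.single_apply]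

theorem cv_sum_coeff (f : k[T;T⁻¹]) :
    f = ∑ n ∈ f.coeff.support, C (f.coeff n) * T n := by
  ext m
  rw [AddMonoidAlgebra.coeff_sum, Finsupp.finsetSum_apply]
  simp only [cv_coeff_C_mul_T]
  rw [Finset.sum_ite_eq']
  by_cases h : m ∈ f.coeff.support
  · rw [if_pos h]
  · rw [if_neg h]
    exact Finsupp.notMem_support_iff.1 h

theorem cv_res_inv_x (X : Nbhd k) : X.res ((X.x⁻¹ : X.Bˣ) : X.B) = T (-1) := by
  have h : X.res ((X.x⁻¹ : X.Bˣ) : X.B) * X.res (X.x : X.B) = 1 := by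
    rw [← map_mul, Units.inv_mul, map_one]
  rw [X.res_x] at h
  calc X.res ((X.x⁻¹ : X.Bˣ) : X.B) = X.res ((X.x⁻¹ : X.Bˣ) : X.B) * (T 1 * T (-1)) := by
        rw [← T_add]; simp
    _ = T (-1) := by rw [← mul_assoc, h, one_mul]

theorem cv_res_zpow (X : Nbhd k) (n : ℤ) : X.res ((X.x ^ n : X.Bˣ) : X.B) = T n := by
  obtain ⟨m, rfl | rfl⟩ := n.eq_nat_or_neg
  · rw [zpow_natCast, Units.val_pow_eq_pow_val, map_pow, X.res_x, T_pow]
    simp
  · rw [zpow_neg, zpow_natCast, ← inv_pow, Units.val_pow_eq_pow_val, map_pow, cv_res_inv_x, T_pow]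
    simp

theorem cv_res_surj (X : Nbhd k) : Function.Surjective X.res := by
  intro f
  refine ⟨∑ n ∈ f.coeff.support, algebraMap k X.B (f.coeff n) * ((X.x ^ n : X.Bˣ) : X.B), ?_⟩
  conv_rhs => rw [cv_sum_coeff f]
  rw [map_sum]
  refine Finset.sum_congr rfl fun n _ => ?_
  rw [map_mul, cv_res_zpow, AlgHom.commutes]
  rfl

theorem cv_split (f : k[T;T⁻¹]) : ∃ f₀ ∈ Reg0 k, ∃ f₁ ∈ RegInf k (0 : ℤ), f = f₀ + f₁ := by
  classical
  refine ⟨∑ n ∈ f.coeff.support.filter (fun n => 0 ≤ n), C (f.coeff n) * T n, ?_,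
    ∑ n ∈ f.coeff.support.filter (fun n => ¬ 0 ≤ n), C (f.coeff n) * T n, ?_, ?_⟩
  · intro i hi
    rw [AddMonoidAlgebra.coeff_sum, Finsupp.finsetSum_apply]
    refine Finset.sum_eq_zero fun n hn => ?_
    rw [cv_coeff_C_mul_T, if_neg]
    have := (Finset.mem_filter.1 hn).2
    omega
  · intro i hi
    rw [AddMonoidAlgebra.coeff_sum, Finsupp.finsetSum_apply]
    refine Finset.sum_eq_zero fun n hn => ?_
    rw [cv_coeff_C_mul_T, if_neg]
    have := (Finset.mem_filter.1 hn).2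
    omega
  · rw [Finset.sum_filter_add_sum_filter_not]
    exact cv_sum_coeff f

theorem cv_coeff_T_mul (f : k[T;T⁻¹]) (a b : ℤ) : (T a * f).coeff b = f.coeff (b - a) := by
  have h : b = a + (b - a) := by ring
  conv_lhs => rw [h]
  exact (AddMonoidAlgebra.coeff_single_mul_add f (1 : k) a (b - a)).trans (one_mul _)

theorem cv_split' (f : k[T;T⁻¹]) :
    ∃ f₀ ∈ Reg0 k, ∃ f₁ ∈ RegInf k (0 : ℤ), f = f₀ + T (-1) * f₁ := by
  classical
  refine ⟨∑ n ∈ f.coeff.support.filter (fun n => 0 ≤ n), C (f.coeff n) * T n, ?_,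
    T 1 * ∑ n ∈ f.coeff.support.filter (fun n => ¬ 0 ≤ n), C (f.coeff n) * T n, ?_, ?_⟩
  · intro i hi
    rw [AddMonoidAlgebra.coeff_sum, Finsupp.finsetSum_apply]
    refine Finset.sum_eq_zero fun n hn => ?_
    rw [cv_coeff_C_mul_T, if_neg]
    have := (Finset.mem_filter.1 hn).2
    omega
  · intro i hi
    rw [cv_coeff_T_mul, AddMonoidAlgebra.coeff_sum, Finsupp.finsetSum_apply]
    refine Finset.sum_eq_zero fun n hn => ?_
    rw [cv_coeff_C_mul_T, if_neg]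
    have := (Finset.mem_filter.1 hn).2
    omega
  · rw [← mul_assoc, ← T_add, neg_add_cancel, T_zero, one_mul,
      Finset.sum_filter_add_sum_filter_not]
    exact cv_sum_coeff f

theorem cv_const {f : k[T;T⁻¹]} (h₀ : f ∈ Reg0 k) (h₁ : f ∈ RegInf k (0 : ℤ)) :
    f = C (f.coeff 0) := by
  ext n
  rw [C_apply]
  rcases lt_trichotomy n 0 with h | h | h
  · rw [if_neg (by omega), h₀ n h]
  · subst h; simp
  · rw [if_neg (by omega), h₁ n h]

theorem cv_one_Reg0 : (1 : k[T;T⁻¹]) ∈ Reg0 k := by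
  intro i hi
  rw [← T_zero, T_apply, if_neg (by omega)]

theorem cv_one_RegInf : (1 : k[T;T⁻¹]) ∈ RegInf k (0 : ℤ) := by
  intro i hi
  rw [← T_zero, T_apply, if_neg (by omega)]

theorem cv_zero_Reg0 : (0 : k[T;T⁻¹]) ∈ Reg0 k := fun _ _ => rfl

theorem cv_zero_RegInf (d : ℤ) : (0 : k[T;T⁻¹]) ∈ RegInf k d := fun _ _ => rfl

/-- `H¹ = 0` for every step of a Loewy filtration. -/
theorem cv_h1 {E : Sh X} {n : ℕ} {P : ℕ → Submodule X.B E.M} (h0 : P 0 = ⊥)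
    (hP : ∀ j < n, P j ≤ P (j + 1) ∧ IsLayer E 0 (P j) (P (j + 1))) :
    ∀ j ≤ n, ∀ p ∈ P j, ∃ p₀ ∈ P j, ∃ p₁ ∈ P j, p₀ ∈ E.M₀ ∧ p₁ ∈ E.M₁ ∧ p = p₀ + p₁ := by
  intro j
  induction j with
  | zero =>
    intro _ p hp
    rw [h0, Submodule.mem_bot] at hp
    exact ⟨0, zero_mem _, 0, zero_mem _, zero_mem _, zero_mem _, by simp [hp]⟩
  | succ j ih =>
    intro hj p hp
    obtain ⟨hle, r, θ, h1, -, h3, h4, h5⟩ := hP j hj
    choose f₀ hf₀ f₁ hf₁ hf using fun i => cv_split (θ ⟨p, hp⟩ i)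
    obtain ⟨q₀, hq₀, hq₀'⟩ := (h4 f₀).2 hf₀
    obtain ⟨q₁, hq₁, hq₁'⟩ := (h5 f₁).2 hf₁
    have hmem : p - q₀ - q₁ ∈ P j := by
      refine (h3 (⟨p, hp⟩ - q₀ - q₁)).1 ?_
      rw [map_sub, map_sub, hq₀', hq₁']
      funext i
      simp only [Pi.sub_apply, Pi.zero_apply, hf i]
      ring
    obtain ⟨a₀, ha₀, a₁, ha₁, b₀, b₁, hab⟩ := ih (by omega) _ hmem
    refine ⟨q₀ + a₀, add_mem q₀.2 (hle ha₀), q₁ + a₁, add_mem q₁.2 (hle ha₁),
      add_mem hq₀ b₀, add_mem hq₁ b₁, ?_⟩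
    rw [sub_sub, sub_eq_iff_eq_add] at hab
    rw [hab]
    abel

/-- global sections of a layer lift -/
theorem cv_lift_one {E : Sh X} {n : ℕ} {P : ℕ → Submodule X.B E.M} (h0 : P 0 = ⊥)
    (hP : ∀ j < n, P j ≤ P (j + 1) ∧ IsLayer E 0 (P j) (P (j + 1))) {j : ℕ} (hj : j < n)
    {r : ℕ} {θ : P (j + 1) →+ (Fin r → k[T;T⁻¹])}
    (h3 : ∀ p : P (j + 1), θ p = 0 ↔ (p : E.M) ∈ P j)
    (h4 : ∀ f : Fin r → k[T;T⁻¹], (∃ p : P (j + 1), (p : E.M) ∈ E.M₀ ∧ θ p = f) ↔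
      ∀ i, f i ∈ Reg0 k)
    (h5 : ∀ f : Fin r → k[T;T⁻¹], (∃ p : P (j + 1), (p : E.M) ∈ E.M₁ ∧ θ p = f) ↔
      ∀ i, f i ∈ RegInf k 0) (i : Fin r) :
    ∃ g : P (j + 1), (g : E.M) ∈ E.M₀ ∧ (g : E.M) ∈ E.M₁ ∧ θ g = Pi.single i 1 := by
  have hle := (hP j hj).1
  have e₀ : ∀ l, (Pi.single i (1 : k[T;T⁻¹]) : Fin r → k[T;T⁻¹]) l ∈ Reg0 k := by
    intro l
    by_cases h : l = i
    · subst h; rw [Pi.single_eq_same]; exact cv_one_Reg0
    · rw [Pi.single_eq_of_ne h]; exact cv_zero_Reg0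
  have e₁ : ∀ l, (Pi.single i (1 : k[T;T⁻¹]) : Fin r → k[T;T⁻¹]) l ∈ RegInf k 0 := by
    intro l
    by_cases h : l = i
    · subst h; rw [Pi.single_eq_same]; exact cv_one_RegInf
    · rw [Pi.single_eq_of_ne h]; exact cv_zero_RegInf 0
  obtain ⟨q₀, hq₀, hq₀'⟩ := (h4 _).2 e₀
  obtain ⟨q₁, hq₁, hq₁'⟩ := (h5 _).2 e₁
  have hmem : (q₀ : E.M) - q₁ ∈ P j := by
    refine (h3 (q₀ - q₁)).1 ?_
    rw [map_sub, hq₀', hq₁', sub_self]
  obtain ⟨a₀, ha₀, a₁, ha₁, b₀, b₁, hab⟩ := cv_h1 h0 hP j hj.le _ hmem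
  refine ⟨q₀ - ⟨a₀, hle ha₀⟩, sub_mem hq₀ b₀, ?_, ?_⟩
  · have : ((q₀ - ⟨a₀, hle ha₀⟩ : P (j + 1)) : E.M) = q₁ + a₁ := by
      rw [sub_eq_iff_eq_add] at hab
      rw [Submodule.coe_sub, hab]
      change a₀ + a₁ + (q₁ : E.M) - a₀ = q₁ + a₁
      abel
    rw [this]
    exact add_mem hq₁ b₁
  · rw [map_sub, (h3 ⟨a₀, hle ha₀⟩).2 ha₀, hq₀', sub_zero]

section gen

variable {E : Sh X} {ι : Type*} (t : ι → X.B) (σ : ι → ℤ)

/-- finite sums of the `t i • h`, `h` a global section -/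
def cvSpan (E : Sh X) (t : ι → X.B) : AddSubgroup E.M :=
  AddSubgroup.closure {y | ∃ (i : ι) (h : E.M), h ∈ E.M₀ ∧ h ∈ E.M₁ ∧ y = t i • h}

theorem cv_algebraMap_smul_mem₀ {c : k} {h : E.M} (hh : h ∈ E.M₀) :
    algebraMap k X.B c • h ∈ E.M₀ := E.smul₀ _ (X.B₀.algebraMap_mem c) _ hh

theorem cv_algebraMap_smul_mem₁ {c : k} {h : E.M} (hh : h ∈ E.M₁) :
    algebraMap k X.B c • h ∈ E.M₁ := E.smul₁ _ (X.B₁.algebraMap_mem c) _ hh

theorem Loewy.chart_gen {L : ℕ} (h : Loewy E 0 L) (ht : ∀ i, X.res (t i) = T (σ i))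
    (M' : AddSubgroup E.M) (hM : ∀ i, ∀ m ∈ E.M₀, m ∈ E.M₁ → t i • m ∈ M')
    (W : Set k[T;T⁻¹]) (hW : ∀ f ∈ W, ∀ n, f.coeff n ≠ 0 → ∃ i, σ i = n)
    (hlay : ∀ (r : ℕ) (P₂ : Submodule X.B E.M) (θ : P₂ →+ (Fin r → k[T;T⁻¹])),
      (∀ f : Fin r → k[T;T⁻¹], (∃ p : P₂, (p : E.M) ∈ E.M₀ ∧ θ p = f) ↔ ∀ i, f i ∈ Reg0 k) →
      (∀ f : Fin r → k[T;T⁻¹], (∃ p : P₂, (p : E.M) ∈ E.M₁ ∧ θ p = f) ↔
        ∀ i, f i ∈ RegInf k 0) → ∀ p : P₂, (p : E.M) ∈ M' → ∀ l, θ p l ∈ W)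
    {m : E.M} (hm : m ∈ M') : m ∈ cvSpan E t := by
  obtain ⟨P, h0, hN, hP⟩ := h
  have key : ∀ j ≤ L, ∀ m ∈ P j, m ∈ M' → m ∈ cvSpan E t := by
    intro j
    induction j with
    | zero =>
      intro _ m hm _
      rw [h0, Submodule.mem_bot] at hm
      rw [hm]
      exact zero_mem _
    | succ j ih =>
      intro hj m hm hm'
      obtain ⟨hle, r, θ, h1, -, h3, h4, h5⟩ := hP j hj
      choose g g₀ g₁ hg using fun i => cv_lift_one h0 hP hj h3 h4 h5 i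
      have hWl := hlay r _ θ h4 h5 ⟨m, hm⟩ hm'
      have hb : ∀ l, ∃ b : X.B, X.res b = θ ⟨m, hm⟩ l ∧
          ∀ y : E.M, y ∈ E.M₀ → y ∈ E.M₁ → b • y ∈ cvSpan E t ∧ b • y ∈ M' := by
        intro l
        by_cases hf0 : θ ⟨m, hm⟩ l = 0
        · refine ⟨0, by rw [hf0, map_zero], fun y _ _ => ?_⟩
          rw [zero_smul]
          exact ⟨zero_mem _, zero_mem _⟩
        have : Nonempty ι := by
          by_contra hne
          rw [not_nonempty_iff] at hne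
          apply hf0
          ext n
          by_contra hn
          obtain ⟨i, -⟩ := hW _ (hWl l) n hn
          exact hne.elim i
        choose! i hi using hW _ (hWl l)
        refine ⟨∑ n ∈ (θ ⟨m, hm⟩ l).coeff.support,
          algebraMap k X.B ((θ ⟨m, hm⟩ l).coeff n) * t (i n), ?_, ?_⟩
        · conv_rhs => rw [cv_sum_coeff (θ ⟨m, hm⟩ l)]
          rw [map_sum]
          refine Finset.sum_congr rfl fun n hn => ?_
          rw [map_mul, ht, hi n (Finsupp.mem_support_iff.1 hn), AlgHom.commutes]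
          rfl
        · intro y hy₀ hy₁
          rw [Finset.sum_smul]
          constructor
          · refine sum_mem fun n _ => AddSubgroup.subset_closure ⟨i n, _,
              cv_algebraMap_smul_mem₀ (c := (θ ⟨m, hm⟩ l).coeff n) hy₀,
              cv_algebraMap_smul_mem₁ (c := (θ ⟨m, hm⟩ l).coeff n) hy₁, ?_⟩
            rw [← mul_smul, mul_comm]
          · refine sum_mem fun n _ => ?_
            rw [mul_comm, mul_smul]
            exact hM _ _ (cv_algebraMap_smul_mem₀ hy₀) (cv_algebraMap_smul_mem₁ hy₁)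
      choose b hb hb' using hb
      have hmem : m - ∑ i, b i • (g i : E.M) ∈ P j := by
        have : ((⟨m, hm⟩ - ∑ i, b i • g i : P (j + 1)) : E.M) = m - ∑ i, b i • (g i : E.M) := by
          simp
        rw [← this]
        refine (h3 _).1 ?_
        rw [map_sub, map_sum]
        funext l
        rw [Pi.sub_apply, Finset.sum_apply]
        simp only [h1, hg, hb]
        rw [Finset.sum_eq_single l (fun i _ hi => by simp [hi.symm]) (by simp)]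
        simp
      have h2 := ih (by omega) _ hmem (sub_mem hm' (sum_mem fun i _ => (hb' i _ (g₀ i) (g₁ i)).2))
      have h6 : ∑ i, b i • (g i : E.M) ∈ cvSpan E t :=
        sum_mem fun i _ => (hb' i _ (g₀ i) (g₁ i)).1
      have := add_mem h2 h6
      rwa [sub_add_cancel] at this
  exact key L le_rfl m (by rw [hN]; trivial) hm

theorem cvSpan_exists {m : E.M} (hm : m ∈ cvSpan E t) :
    ∃ c : ι →₀ E.M, (∀ i, c i ∈ E.M₀ ∧ c i ∈ E.M₁) ∧ m = c.sum fun i y => t i • y := by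
  classical
  unfold cvSpan at hm
  induction hm using AddSubgroup.closure_induction with
  | mem y hy =>
    obtain ⟨i, h, h₀, h₁, rfl⟩ := hy
    refine ⟨Finsupp.single i h, fun j => ?_, ?_⟩
    · by_cases hj : i = j
      · subst hj; simpa using ⟨h₀, h₁⟩
      · rw [Finsupp.single_eq_of_ne' hj]; exact ⟨zero_mem _, zero_mem _⟩
    · exact (Finsupp.sum_single_index (h := fun i y => t i • y) (smul_zero _)).symm
  | zero => exact ⟨0, fun i => ⟨zero_mem _, zero_mem _⟩, by simp⟩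
  | add x y _ _ hx hy =>
    obtain ⟨c, hc, rfl⟩ := hx
    obtain ⟨d, hd, rfl⟩ := hy
    refine ⟨c + d, fun i => ⟨add_mem (hc i).1 (hd i).1, add_mem (hc i).2 (hd i).2⟩, ?_⟩
    rw [Finsupp.sum_add_index' (fun _ => smul_zero _) (fun _ _ _ => smul_add _ _ _)]
  | neg x _ hx =>
    obtain ⟨c, hc, rfl⟩ := hx
    refine ⟨-c, fun i => ⟨neg_mem (hc i).1, neg_mem (hc i).2⟩, ?_⟩
    rw [Finsupp.sum_neg_index (fun _ => smul_zero _)]
    simp [Finsupp.sum]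

theorem Loewy.chart_indep {L : ℕ} (h : Loewy E 0 L) (ht : ∀ i, X.res (t i) = T (σ i))
    (hσ : Function.Injective σ) (c : ι →₀ E.M) (hc : ∀ i, c i ∈ E.M₀ ∧ c i ∈ E.M₁)
    (h0c : (c.sum fun i y => t i • y) = 0) : c = 0 := by
  obtain ⟨P, h0, hN, hP⟩ := h
  have key : ∀ d ≤ L, ∀ i, c i ∈ P (L - d) := by
    intro d
    induction d with
    | zero => intro _ i; rw [Nat.sub_zero, hN]; trivial
    | succ d ih =>
      intro hd i
      have ih := ih (by omega)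
      obtain ⟨j, hj⟩ : ∃ j, L - d = j + 1 := ⟨L - (d + 1), by omega⟩
      have hj' : L - (d + 1) = j := by omega
      rw [hj] at ih
      rw [hj']
      obtain ⟨hle, r, θ, h1, -, h3, h4, h5⟩ := hP j (by omega)
      have hconst : ∀ i l, θ ⟨c i, ih i⟩ l = C ((θ ⟨c i, ih i⟩ l).coeff 0) := fun i l =>
        cv_const ((h4 _).1 ⟨_, (hc i).1, rfl⟩ l) ((h5 _).1 ⟨_, (hc i).2, rfl⟩ l)
      have hsum : (∑ i ∈ c.support, t i • (⟨c i, ih i⟩ : P (j + 1))) = 0 := by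
        ext
        rw [Submodule.coe_sum]
        exact h0c
      refine (h3 ⟨c i, ih i⟩).1 ?_
      by_cases hi : i ∈ c.support
      swap
      · have : (⟨c i, ih i⟩ : P (j + 1)) = 0 := by
          ext
          exact Finsupp.notMem_support_iff.1 hi
        rw [this, map_zero]
      funext l
      have h6 : θ (∑ i ∈ c.support, t i • (⟨c i, ih i⟩ : P (j + 1))) l = 0 := by
        rw [hsum, map_zero]; rfl
      rw [map_sum, Finset.sum_apply] at h6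
      have h7 := congrArg (fun f : k[T;T⁻¹] => f.coeff (σ i)) h6
      simp only [h1, ht] at h7
      rw [AddMonoidAlgebra.coeff_sum, Finsupp.finsetSum_apply, Finset.sum_eq_single i] at h7
      · rw [hconst i l, T_mul, cv_coeff_C_mul_T, if_pos rfl] at h7
        rw [hconst i l, h7]
        simp
      · intro i' _ hne
        rw [hconst i' l, T_mul, cv_coeff_C_mul_T, if_neg (fun hh => hne (hσ hh))]
      · intro hh; exact absurd hi hh
  ext i
  have := key L le_rfl i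
  rw [Nat.sub_self, h0, Submodule.mem_bot] at this
  exact this

end gen

/-- `H⁰(E(-1)) = H¹(E(-1)) = 0` for the iterated extensions of `𝒪_C` -/
theorem Loewy.acycT {E : Sh X} {L : ℕ} (h : Loewy E 0 L) : AcycT E := by
  obtain ⟨P, h0, hN, hP⟩ := h
  constructor
  · intro b hb hb'
    have key : ∀ j ≤ L, b ∈ P j → b = 0 := by
      intro j
      induction j with
      | zero => intro _ hm; rw [h0] at hm; simpa using hm
      | succ j ih =>
        intro hj hm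
        obtain ⟨r, θ, h1, -, h3, h4, h5⟩ := (hP j hj).2
        refine ih (by omega) ((h3 ⟨b, hm⟩).1 ?_)
        have a₁ := (h5 (θ ⟨b, hm⟩)).1 ⟨_, hb, rfl⟩
        have a₀ := (h4 (θ ((X.w : X.B) • ⟨b, hm⟩))).1 ⟨_, hb', rfl⟩
        funext i
        have a₂ := a₀ i
        rw [h1, X.res_w] at a₂
        ext z
        rcases lt_or_ge 0 z with hz | hz
        · exact a₁ i z hz
        · have := a₂ (z - 1) (by omega)
          rw [cv_coeff_T_mul] at this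
          simpa using this
    exact key L le_rfl (by rw [hN]; trivial)
  · have key : ∀ j ≤ L, ∀ m ∈ P j, ∃ a ∈ P j, ∃ b ∈ P j, a ∈ E.M₀ ∧ b ∈ E.M₁ ∧
        m = a + (X.w : X.B) • b := by
      intro j
      induction j with
      | zero =>
        intro _ m hm
        rw [h0, Submodule.mem_bot] at hm
        exact ⟨0, zero_mem _, 0, zero_mem _, zero_mem _, zero_mem _, by simp [hm]⟩
      | succ j ih =>
        intro hj m hm
        obtain ⟨hle, r, θ, h1, -, h3, h4, h5⟩ := hP j hj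
        choose f₀ hf₀ f₁ hf₁ hf using fun i => cv_split' (θ ⟨m, hm⟩ i)
        obtain ⟨q₀, hq₀, hq₀'⟩ := (h4 f₀).2 hf₀
        obtain ⟨q₁, hq₁, hq₁'⟩ := (h5 f₁).2 hf₁
        have hmem : m - q₀ - (X.w : X.B) • (q₁ : E.M) ∈ P j := by
          refine (h3 (⟨m, hm⟩ - q₀ - (X.w : X.B) • q₁)).1 ?_
          rw [map_sub, map_sub, hq₀']
          funext i
          simp only [Pi.sub_apply, Pi.zero_apply, h1, hq₁', X.res_w, hf i]
          ring
        obtain ⟨a₀, ha₀, a₁, ha₁, b₀, b₁, hab⟩ := ih (by omega) _ hmem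
        refine ⟨q₀ + a₀, add_mem q₀.2 (hle ha₀), q₁ + a₁, add_mem q₁.2 (hle ha₁),
          add_mem hq₀ b₀, add_mem hq₁ b₁, ?_⟩
        rw [sub_sub, sub_eq_iff_eq_add] at hab
        rw [hab, smul_add]
        abel
    intro m
    obtain ⟨a, -, b, -, ha, hb, hab⟩ := key L le_rfl m (by rw [hN]; trivial)
    exact ⟨a, ha, b, hb, hab⟩

/-- existence and uniqueness of the expansion, for the three charts -/
theorem Loewy.expand {E : Sh X} {L : ℕ} (h : Loewy E 0 L) (m : E.M) :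
    ∃ c : ℤ →₀ E.M, (∀ i, c i ∈ E.M₀ ∧ c i ∈ E.M₁) ∧
      m = c.sum fun n y => ((X.x ^ n : X.Bˣ) : X.B) • y := by
  refine cvSpan_exists (fun n : ℤ => ((X.x ^ n : X.Bˣ) : X.B))
    (h.chart_gen _ (fun n => n) (fun n => cv_res_zpow X n) ⊤ (fun _ _ _ _ => trivial) Set.univ
      (fun _ _ n _ => ⟨n, rfl⟩) (fun _ _ _ _ _ _ _ _ => trivial) trivial)

theorem Loewy.expand₀ {E : Sh X} {L : ℕ} (h : Loewy E 0 L) {m : E.M} (hm : m ∈ E.M₀) :
    ∃ c : ℕ →₀ E.M, (∀ i, c i ∈ E.M₀ ∧ c i ∈ E.M₁) ∧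
      m = c.sum fun n y => (X.x : X.B) ^ n • y := by
  refine cvSpan_exists (fun n : ℕ => (X.x : X.B) ^ n)
    (h.chart_gen _ (fun n : ℕ => (n : ℤ)) (fun n => by rw [map_pow, X.res_x, T_pow]; simp) E.M₀
      (fun n m h _ => E.smul₀ _ (X.B₀.pow_mem X.x_mem n) _ h) (Reg0 k)
      (fun f hf n hn => ?_) (fun r P θ h4 h5 p hp l => (h4 _).1 ⟨p, hp, rfl⟩ l) hm)
  have : ¬ n < 0 := fun hlt => hn (hf n hlt)
  exact ⟨n.toNat, by simp; omega⟩

theorem Loewy.expand₁ {E : Sh X} {L : ℕ} (h : Loewy E 0 L) {m : E.M} (hm : m ∈ E.M₁) :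
    ∃ c : ℕ →₀ E.M, (∀ i, c i ∈ E.M₀ ∧ c i ∈ E.M₁) ∧
      m = c.sum fun n y => (X.w : X.B) ^ n • y := by
  refine cvSpan_exists (fun n : ℕ => (X.w : X.B) ^ n)
    (h.chart_gen _ (fun n : ℕ => -(n : ℤ)) (fun n => by rw [map_pow, X.res_w, T_pow]; simp) E.M₁
      (fun n m _ h => E.smul₁ _ (X.B₁.pow_mem X.w_mem n) _ h) (RegInf k 0)
      (fun f hf n hn => ?_) (fun r P θ h4 h5 p hp l => (h5 _).1 ⟨p, hp, rfl⟩ l) hm)
  have : ¬ 0 < n := fun hlt => hn (hf n hlt)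
  exact ⟨(-n).toNat, by simp; omega⟩

theorem Loewy.uniq {E : Sh X} {L : ℕ} (h : Loewy E 0 L) (c : ℤ →₀ E.M)
    (hc : ∀ i, c i ∈ E.M₀ ∧ c i ∈ E.M₁)
    (h0 : (c.sum fun n y => ((X.x ^ n : X.Bˣ) : X.B) • y) = 0) : c = 0 :=
  h.chart_indep _ (fun n => n) (fun n => cv_res_zpow X n) (fun _ _ h => h) c hc h0

theorem Loewy.uniq₀ {E : Sh X} {L : ℕ} (h : Loewy E 0 L) (c : ℕ →₀ E.M)
    (hc : ∀ i, c i ∈ E.M₀ ∧ c i ∈ E.M₁)
    (h0 : (c.sum fun n y => (X.x : X.B) ^ n • y) = 0) : c = 0 :=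
  h.chart_indep _ (fun n : ℕ => (n : ℤ)) (fun n => by rw [map_pow, X.res_x, T_pow]; simp)
    (fun _ _ h => by simpa using h) c hc h0

theorem Loewy.uniq₁ {E : Sh X} {L : ℕ} (h : Loewy E 0 L) (c : ℕ →₀ E.M)
    (hc : ∀ i, c i ∈ E.M₀ ∧ c i ∈ E.M₁)
    (h0 : (c.sum fun n y => (X.w : X.B) ^ n • y) = 0) : c = 0 :=
  h.chart_indep _ (fun n : ℕ => -(n : ℤ)) (fun n => by rw [map_pow, X.res_w, T_pow]; simp)
    (fun _ _ h => by simpa using h) c hc h0

end Pool.Agent.DWC
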