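import Pool.Agent.H17CV.Charts
import Pool.Agent.DWC.Kill

/-!
# The endomorphism algebra of the universal sheaf
-/

set_option autoImplicit false

open LaurentPolynomial

universe u

namespace Pool.Agent.DWC

variable {k : Type u} [Field k] {X : Nbhd k}

theorem cv_T_mul_mem₀ {f : k[T;T⁻¹]} (hf : f ∈ Reg0 k) (n : ℕ) : T (n : ℤ) * f ∈ Reg0 k := by
  intro i hi
  rw [cv_coeff_T_mul]
  exact hf _ (by omega)

theorem cv_T_mul_mem₁ {f : k[T;T⁻¹]} (hf : f ∈ RegInf k 0) (n : ℕ) :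
    T (-(n : ℤ)) * f ∈ RegInf k 0 := by
  intro i hi
  rw [cv_coeff_T_mul]
  exact hf _ (by omega)

theorem cv_C_mul_coeff (c : k) (f : k[T;T⁻¹]) (i : ℤ) : (C c * f).coeff i = c * f.coeff i := by
  rw [← smul_eq_C_mul, AddMonoidAlgebra.coeff_smul, Finsupp.smul_apply, smul_eq_mul]

theorem cv_mul_mem₀ {f g : k[T;T⁻¹]} (hf : f ∈ Reg0 k) (hg : g ∈ Reg0 k) :
    f * g ∈ Reg0 k := by
  intro i hi
  rw [cv_sum_coeff f, Finset.sum_mul, AddMonoidAlgebra.coeff_sum, Finsupp.finsetSum_apply]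
  refine Finset.sum_eq_zero fun n hn => ?_
  have hn0 : ¬ n < 0 := fun h => (Finsupp.mem_support_iff.1 hn) (hf n h)
  rw [mul_assoc, cv_C_mul_coeff, cv_coeff_T_mul, hg _ (by omega), mul_zero]

theorem cv_mul_mem₁ {f g : k[T;T⁻¹]} (hf : f ∈ RegInf k 0) (hg : g ∈ RegInf k 0) :
    f * g ∈ RegInf k 0 := by
  intro i hi
  rw [cv_sum_coeff f, Finset.sum_mul, AddMonoidAlgebra.coeff_sum, Finsupp.finsetSum_apply]
  refine Finset.sum_eq_zero fun n hn => ?_
  have hn0 : ¬ 0 < n := fun h => (Finsupp.mem_support_iff.1 hn) (hf n h)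
  rw [mul_assoc, cv_C_mul_coeff, cv_coeff_T_mul, hg _ (by omega), mul_zero]

theorem cv_exists_bound (f : k[T;T⁻¹]) : ∃ n : ℕ, ∀ i : ℤ, (n : ℤ) < |i| → f.coeff i = 0 := by
  refine ⟨∑ i ∈ f.coeff.support, i.natAbs, fun i hi => ?_⟩
  by_contra h
  have h1 := Finset.single_le_sum (f := fun i : ℤ => i.natAbs) (fun _ _ => Nat.zero_le _)
    (Finsupp.mem_support_iff.2 h)
  have h2 : |i| = (i.natAbs : ℤ) := (Int.natCast_natAbs i).symm
  rw [h2] at hi
  have h3 : i.natAbs ≤ ∑ i ∈ f.coeff.support, i.natAbs := h1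
  omega

/-- the structure sheaf of `C` -/
noncomputable def OC (X : Nbhd k) : Sh X where
  M := k[T;T⁻¹]
  module := Module.compHom _ X.res.toRingHom
  M₀ :=
    { carrier := Reg0 k
      zero_mem' := cv_zero_Reg0
      add_mem' := fun {a b} ha hb i hi => by
        rw [AddMonoidAlgebra.coeff_add, Finsupp.add_apply, ha i hi, hb i hi, add_zero]
      neg_mem' := fun {a} ha i hi => by
        rw [AddMonoidAlgebra.coeff_neg, Finsupp.neg_apply, ha i hi, neg_zero] }
  M₁ :=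
    { carrier := RegInf k 0
      zero_mem' := cv_zero_RegInf 0
      add_mem' := fun {a b} ha hb i hi => by
        rw [AddMonoidAlgebra.coeff_add, Finsupp.add_apply, ha i hi, hb i hi, add_zero]
      neg_mem' := fun {a} ha i hi => by
        rw [AddMonoidAlgebra.coeff_neg, Finsupp.neg_apply, ha i hi, neg_zero] }
  smul₀ := fun b hb m hm => cv_mul_mem₀ (X.res₀ b hb) hm
  smul₁ := fun b hb m hm => cv_mul_mem₁ (X.res₁ b hb) hm
  loc₀ := by
    intro m
    obtain ⟨n, hn⟩ := cv_exists_bound (k := k) m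
    refine ⟨n, fun i hi => ?_⟩
    change (X.res ((X.x : X.B) ^ n) * m : k[T;T⁻¹]).coeff i = 0
    rw [map_pow, X.res_x, T_pow, mul_one, cv_coeff_T_mul]
    exact hn _ (by rw [abs_of_neg (by omega)]; omega)
  loc₁ := by
    intro m
    obtain ⟨n, hn⟩ := cv_exists_bound (k := k) m
    refine ⟨n, fun i hi => ?_⟩
    change (X.res ((X.w : X.B) ^ n) * m : k[T;T⁻¹]).coeff i = 0
    rw [map_pow, X.res_w, T_pow, cv_coeff_T_mul]
    exact hn _ (by rw [abs_of_pos (by omega)]; omega)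

theorem OC_smul (b : X.B) (f : k[T;T⁻¹]) :
    (b • (show (OC X).M from f) : (OC X).M) = (X.res b * f : k[T;T⁻¹]) := rfl

theorem OC_loewy (X : Nbhd k) : Loewy (OC X) 0 1 := by
  refine ⟨fun j => if j = 0 then ⊥ else ⊤, rfl, rfl, fun j hj => ⟨?_, ?_⟩⟩
  · obtain rfl : j = 0 := by omega
    exact bot_le
  obtain rfl : j = 0 := by omega
  refine ⟨1,
    { toFun := fun p _ => (p : (OC X).M)
      map_zero' := rfl
      map_add' := fun _ _ => rfl }, fun _ _ _ => rfl, ?_, ?_, ?_, ?_⟩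
  · intro f
    refine ⟨⟨f 0, trivial⟩, ?_⟩
    funext i
    rw [Subsingleton.elim i 0]
    rfl
  · intro p
    constructor
    · intro h
      exact congrFun h 0
    · intro h
      funext i
      exact h
  · intro f
    constructor
    · rintro ⟨p, hp, rfl⟩ i
      exact hp
    · intro h
      refine ⟨⟨f 0, trivial⟩, h 0, ?_⟩
      funext i
      rw [Subsingleton.elim i 0]
      rfl
  · intro f
    constructor
    · rintro ⟨p, hp, rfl⟩ i
      exact hp
    · intro h
      refine ⟨⟨f 0, trivial⟩, h 0, ?_⟩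
      funext i
      rw [Subsingleton.elim i 0]
      rfl

theorem Loewy.cv_pow_smul {E : Sh X} {n : ℕ} (h : Loewy E 0 n) {c : X.B}
    (hc : c ∈ RingHom.ker X.res.toRingHom ^ n)
    (m : E.M) : c • m = 0 := by
  obtain ⟨P, h0, hN, hP⟩ := h
  have key : ∀ j ≤ n, ∀ p ∈ P j, ∀ c ∈ RingHom.ker X.res.toRingHom ^ j, c • p = 0 := by
    intro j
    induction j with
    | zero => intro _ p hp c _; rw [h0, Submodule.mem_bot] at hp; rw [hp, smul_zero]
    | succ j ih =>
      intro hj p hp c hc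
      rw [pow_succ] at hc
      induction hc using Submodule.mul_induction_on' with
      | mem_mul_mem a ha b hb =>
        rw [mul_smul]
        exact ih (by omega) _ ((hP j hj).2.smul_mem (RingHom.mem_ker.1 hb) hp) a ha
      | add a _ b _ ha hb => rw [add_smul, ha, hb, add_zero]
  exact key n le_rfl m (by rw [hN]; trivial) c hc

/-- sheaf endomorphisms -/
def cvEnd (Q : Sh X) : Subring (Module.End X.B Q.M) where
  carrier := {u | IsSheafMap (E := Q) (F := Q) u}
  mul_mem' := fun ha hb => ⟨fun m hm => ha.1 _ (hb.1 m hm), fun m hm => ha.2 _ (hb.2 m hm)⟩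
  one_mem' := ⟨fun _ hm => hm, fun _ hm => hm⟩
  add_mem' := fun ha hb => ⟨fun m hm => add_mem (ha.1 m hm) (hb.1 m hm),
    fun m hm => add_mem (ha.2 m hm) (hb.2 m hm)⟩
  zero_mem' := ⟨fun _ _ => zero_mem _, fun _ _ => zero_mem _⟩
  neg_mem' := fun ha => ⟨fun m hm => neg_mem (ha.1 m hm), fun m hm => neg_mem (ha.2 m hm)⟩

/-- the scalars -/
noncomputable def cvScal (Q : Sh X) : k →+* cvEnd Q :=
  ((algebraMap X.B (Module.End X.B Q.M)).comp (algebraMap k X.B)).codRestrict (cvEnd Q)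
    (fun _ => ⟨fun _ hm => cv_algebraMap_smul_mem₀ hm, fun _ hm => cv_algebraMap_smul_mem₁ hm⟩)

noncomputable instance (Q : Sh X) : Algebra k (cvEnd Q) :=
  RingHom.toAlgebra' (cvScal Q) (fun c x => by
    ext m
    exact (map_smul (x : Module.End X.B Q.M) (algebraMap k X.B c) m).symm)

theorem cvEnd_smul (Q : Sh X) (c : k) (u : cvEnd Q) (m : Q.M) :
    ((c • u : cvEnd Q) : Module.End X.B Q.M) m = algebraMap k X.B c • (u : Module.End X.B Q.M) m :=
  rfl

theorem cvEnd_algebraMap (Q : Sh X) (c : k) (m : Q.M) :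
    ((algebraMap k (cvEnd Q) c : cvEnd Q) : Module.End X.B Q.M) m = algebraMap k X.B c • m :=
  rfl

end Pool.Agent.DWC
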