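import Pool.Agent.H17CV.Defs
import Pool.Agent.H45CV.Loewy

/-!
# M0: the sheaf of a deformation of `𝒪_C` over an object of `art_1`
-/

set_option autoImplicit false

open LaurentPolynomial

universe u

namespace Pool.Agent.DWC

open Pool.Agent.H45CV

variable {k : Type u} [Field k] {X : Nbhd k}

section

variable {Γ : Type u} [Ring Γ] [Algebra k Γ] {ε : Γ →ₐ[k] k} (D : NCDef X ε)

/-- The sheaf of a deformation is an iterated extension of `𝒪_C`. -/
theorem NCDef.loewy (hε : IsArt ε) : ∃ n, Loewy D.F 0 n := exists_loewy D hε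

/-- (A) `H⁰(F(-1)) = H¹(F(-1)) = 0`. -/
theorem NCDef.acycT (hε : IsArt ε) : AcycT D.F := by
  constructor
  · intro b hb hb0
    exact inter D hε ⊤ (fun _ _ _ => Submodule.mem_top) b hb hb0
      (by rw [AF_top]; exact Submodule.mem_top)
  · intro m
    obtain ⟨a, ha, _, b, hb, _, h⟩ := sum_decomp D hε ⊤ (fun _ _ _ => Submodule.mem_top) m
      (by rw [AF_top]; exact Submodule.mem_top)
    exact ⟨a, ha, b, hb, h⟩

/-- (C) `H⁰(F) → H⁰(𝒪_C)` is surjective. -/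
theorem NCDef.exists_one (hε : IsArt ε) : ∃ e ∈ D.F.M₀, e ∈ D.F.M₁ ∧ D.π e = 1 := by
  have h1 : (1 : k[T;T⁻¹]) = C 1 * T 0 := by rw [T_zero, mul_one, map_one]
  obtain ⟨e0, he0, e1⟩ := (D.chart₀.image 1).2 (fun i hi => by
    rw [h1, coeff_CT, if_neg (by omega)])
  obtain ⟨f0, hf0, f1⟩ := (D.chart₁.image 1).2 (fun i hi => by
    rw [h1, coeff_CT, if_neg (by omega)])
  have hd : e0 - f0 ∈ AF D (aug ε) := mem_AF_aug D (by rw [map_sub, e1, f1, sub_self])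
  obtain ⟨a, ha, haA, b, hb, hbA, hab⟩ := sum_decomp D hε (aug ε) (fun x hx γ => by
    have h : ε x = 0 := hx
    show ε (x * γ) = 0
    rw [map_mul, h, zero_mul]) _ hd
  refine ⟨e0 - a, D.F.M₀.sub_mem he0 ha, ?_, ?_⟩
  · have h2 : e0 - a = f0 + (X.w : X.B) • b := by
      rw [sub_eq_iff_eq_add]
      have h3 : e0 = f0 + (e0 - f0) := by abel
      rw [h3, hab]
      abel
    rw [h2]
    exact D.F.M₁.add_mem hf0 (D.F.smul₁ _ X.w_mem _ hb)
  · rw [map_sub, e1, pi_AF_aug D haA, sub_zero]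

/-- (B) `H⁰(F)` is a free `Γ`-module of rank one, generated by every `e` with `π e = 1`. -/
theorem NCDef.exists_unique_gamma (hε : IsArt ε) {e : D.F.M} (he₀ : e ∈ D.F.M₀)
    (he₁ : e ∈ D.F.M₁) (hπ : D.π e = 1) {h : D.F.M} (h₀ : h ∈ D.F.M₀) (h₁ : h ∈ D.F.M₁) :
    ∃! γ : Γ, h = D.ρ γ e := by
  obtain ⟨γ, _, hγ⟩ := global D hε he₀ he₁ hπ ⊤ (fun _ _ _ => Submodule.mem_top) h h₀ h₁
    (by rw [AF_top]; exact Submodule.mem_top)
  refine ⟨γ, hγ, fun γ' hγ' => ?_⟩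
  have h2 : D.ρ (γ' - γ) e = 0 := by
    rw [map_sub, LinearMap.sub_apply, ← hγ, ← hγ', sub_self]
  exact sub_eq_zero.1 (rho_inj D hε hπ h2)

end

end Pool.Agent.DWC
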