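import Pool.Agent.H17CV.Uni
import Pool.Agent.H17CV.M0

/-!
# M3: the universal sheaf is a deformation over its endomorphism algebra
-/

set_option autoImplicit false

open LaurentPolynomial

universe u

namespace Pool.Agent.DWC

variable {k : Type u} [Field k] {X : Nbhd k} {Q : Sh X} {g : Q.M}

theorem cv_exists_end (h : Represents Q g) {y : Q.M} (h₀ : y ∈ Q.M₀) (h₁ : y ∈ Q.M₁) :
    ∃ u : cvEnd Q, (u : Module.End X.B Q.M) g = y := by
  obtain ⟨u, hu, hy⟩ := h.exists_map h.1 h₀ h₁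
  exact ⟨⟨u, hu⟩, hy⟩

theorem cv_end_ext (h : Represents Q g) {u v : cvEnd Q}
    (huv : (u : Module.End X.B Q.M) g = (v : Module.End X.B Q.M) g) : u = v :=
  Subtype.ext (h.map_ext h.1 u.2 v.2 huv)

theorem cv_flatChart (h : Represents Q g) {ι : Type u} (t : ι → X.B) (σ : ι → ℤ)
    (hσ : Function.Injective σ) (ht : ∀ i, X.res (t i) = T (σ i))
    (M' : AddSubgroup Q.M) (hM : ∀ i, ∀ m ∈ Q.M₀, m ∈ Q.M₁ → t i • m ∈ M')
    (W : Set k[T;T⁻¹]) (hW : ∀ f ∈ W, ∀ n, f.coeff n ≠ 0 → ∃ i, σ i = n)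
    (hlay : ∀ (r : ℕ) (P₂ : Submodule X.B Q.M) (θ : P₂ →+ (Fin r → k[T;T⁻¹])),
      (∀ f : Fin r → k[T;T⁻¹], (∃ p : P₂, (p : Q.M) ∈ Q.M₀ ∧ θ p = f) ↔ ∀ i, f i ∈ Reg0 k) →
      (∀ f : Fin r → k[T;T⁻¹], (∃ p : P₂, (p : Q.M) ∈ Q.M₁ ∧ θ p = f) ↔
        ∀ i, f i ∈ RegInf k 0) → ∀ p : P₂, (p : Q.M) ∈ M' → ∀ l, θ p l ∈ W)
    (hst : ∀ u : cvEnd Q, ∀ m ∈ M', (u : Module.End X.B Q.M) m ∈ M')
    (hπ : ∀ m ∈ M', cvPi h m ∈ W) :
    IsFlatChart (cvEps h) (actOf Q (cvEnd Q).subtype) (cvPi h) M' W := by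
  classical
  obtain ⟨L, hL⟩ := h.1
  have hsum : ∀ c : ι →₀ Q.M, (∀ i, c i ∈ Q.M₀ ∧ c i ∈ Q.M₁) →
      cvPi h (c.sum fun i y => t i • y) = ∑ i ∈ c.support, T (σ i) * cvPi h (c i) := by
    intro c _
    rw [Finsupp.sum, map_sum]
    refine Finset.sum_congr rfl fun i _ => ?_
    rw [cvPi_smul, ht]
  refine ⟨hst, fun w => ⟨?_, fun hw => ?_⟩, fun m hm => ⟨fun h0 => ?_, fun hc => ?_⟩, ?_⟩
  · rintro ⟨m, hm, rfl⟩
    exact hπ m hm
  · -- image
    by_cases hw0 : w = 0
    · exact ⟨0, zero_mem _, by rw [hw0, map_zero]⟩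
    have : Nonempty ι := by
      by_contra hne
      rw [not_nonempty_iff] at hne
      apply hw0
      ext n
      by_contra hn
      obtain ⟨i, -⟩ := hW _ hw n hn
      exact hne.elim i
    choose! i hi using hW w hw
    refine ⟨∑ n ∈ w.coeff.support, t (i n) • (algebraMap k X.B (w.coeff n) • g),
      sum_mem fun n _ => hM _ _ (cv_algebraMap_smul_mem₀ h.2.1) (cv_algebraMap_smul_mem₁ h.2.2.1),
      ?_⟩
    rw [map_sum]
    conv_rhs => rw [cv_sum_coeff w]
    refine Finset.sum_congr rfl fun n hn => ?_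
    rw [cvPi_smul, cvPi_smul, ht, hi n (Finsupp.mem_support_iff.1 hn), AlgHom.commutes, cvPi_g,
      mul_one, mul_comm]
    rfl
  · -- kernel
    obtain ⟨c, hc, rfl⟩ := cvSpan_exists t (hL.chart_gen t σ ht M' hM W hW hlay hm)
    choose u hu using fun i => cv_exists_end h (hc i).1 (hc i).2
    have heps : ∀ i, cvEps h (u i) = (cvPi h (c i)).coeff 0 := by
      intro i
      rw [← hu i]
      rfl
    have hconst : ∀ i, cvPi h (c i) = C ((cvPi h (c i)).coeff 0) := fun i =>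
      cv_const (cvPi_mem₀ h (hc i).1) (cvPi_mem₁ h (hc i).2)
    rw [hsum c hc] at h0
    have hz : ∀ i ∈ c.support, cvEps h (u i) = 0 := by
      intro i hi
      rw [heps]
      have h7 := congrArg (fun f : k[T;T⁻¹] => f.coeff (σ i)) h0
      rw [AddMonoidAlgebra.coeff_sum, Finsupp.finsetSum_apply, Finset.sum_eq_single i] at h7
      · rw [hconst i, T_mul, cv_coeff_C_mul_T, if_pos rfl] at h7
        exact h7
      · intro i' _ hne
        rw [hconst i', T_mul, cv_coeff_C_mul_T, if_neg (fun hh => hne (hσ hh))]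
      · intro hh; exact absurd hi hh
    refine sum_mem fun i hi => AddSubgroup.subset_closure ⟨u i, hz i hi, t i • g,
      hM i g h.2.1 h.2.2.1, ?_⟩
    change t i • c i = (u i : Module.End X.B Q.M) (t i • g)
    rw [map_smul, hu]
  · clear hm
    induction hc using AddSubgroup.closure_induction with
    | mem y hy =>
      obtain ⟨γ, hγ, m', -, rfl⟩ := hy
      change cvPi h ((γ : Module.End X.B Q.M) m') = 0
      rw [cvPi_end', hγ, map_zero, zero_mul]
    | zero => exact map_zero _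
    | add x y _ _ hx hy => rw [map_add, hx, hy, add_zero]
    | neg x _ hx => rw [map_neg, hx, neg_zero]
  · -- freeness
    refine ⟨ι, fun i => t i • g, fun i => hM i g h.2.1 h.2.2.1, fun m hm => ?_⟩
    obtain ⟨c, hc, rfl⟩ := cvSpan_exists t (hL.chart_gen t σ ht M' hM W hW hlay hm)
    choose u hu using fun i => cv_exists_end h (hc i).1 (hc i).2
    have hu0 : ∀ i, i ∉ c.support → u i = 0 := by
      intro i hi
      refine cv_end_ext h ?_
      rw [hu, Finsupp.notMem_support_iff.1 hi]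
      rfl
    refine ⟨Finsupp.onFinset c.support u (fun i hi => by
      by_contra hne
      exact hi (hu0 i hne)), ?_, ?_⟩
    · change Finsupp.sum _ _ = _
      rw [Finsupp.onFinset_sum _ (fun i => by
        change ((0 : cvEnd Q) : Module.End X.B Q.M) _ = 0
        rfl)]
      refine Finset.sum_congr rfl fun i _ => ?_
      change (u i : Module.End X.B Q.M) (t i • g) = t i • c i
      rw [map_smul, hu]
    · intro d hd
      have hd' : (d.sum fun i γ => (γ : Module.End X.B Q.M) (t i • g)) =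
          c.sum fun i y => t i • y := hd
      have he := hL.chart_indep t σ ht hσ
        (d.mapRange (fun γ : cvEnd Q => (γ : Module.End X.B Q.M) g) rfl - c)
        (fun i => by
          rw [Finsupp.sub_apply, Finsupp.mapRange_apply]
          exact ⟨sub_mem ((d i).2.1 g h.2.1) (hc i).1, sub_mem ((d i).2.2 g h.2.2.1) (hc i).2⟩)
        (by
          rw [Finsupp.sum_sub_index (fun i a b => smul_sub _ _ _),
            Finsupp.sum_mapRange_index (fun _ => smul_zero _), sub_eq_zero, ← hd']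
          refine Finset.sum_congr rfl fun i _ => ?_
          change t i • ((d i : Module.End X.B Q.M) g) = (d i : Module.End X.B Q.M) (t i • g)
          rw [map_smul])
      ext1 i
      refine cv_end_ext h ?_
      have hi := DFunLike.congr_fun he i
      rw [Finsupp.sub_apply, Finsupp.mapRange_apply, Finsupp.zero_apply, sub_eq_zero] at hi
      rw [hi, Finsupp.onFinset_apply, hu]

/-- the universal sheaf as a deformation -/
noncomputable def cvDef (h : Represents Q g) : NCDef X (cvEps h) where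
  F := Q
  ρ := (cvEnd Q).subtype
  ρ_algebraMap := fun _ _ => rfl
  π := cvPi h
  π_smul := cvPi_smul h
  chart := cv_flatChart h (fun n : ULift.{u} ℤ => ((X.x ^ n.down : X.Bˣ) : X.B))
    (fun n => n.down) (fun _ _ hn => ULift.down_injective hn) (fun n => cv_res_zpow X n.down) ⊤
    (fun _ _ _ _ => trivial) Set.univ (fun _ _ n _ => ⟨⟨n⟩, rfl⟩)
    (fun _ _ _ _ _ _ _ _ => trivial) (fun _ _ _ => trivial) (fun _ _ => trivial)
  chart₀ := cv_flatChart h (fun n : ULift.{u} ℕ => (X.x : X.B) ^ n.down)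
    (fun n => (n.down : ℤ)) (fun a b hn => ULift.down_injective (by simpa using hn))
    (fun n => by rw [map_pow, X.res_x, T_pow]; simp) Q.M₀
    (fun n m hm _ => Q.smul₀ _ (X.B₀.pow_mem X.x_mem n.down) _ hm) (Reg0 k)
    (fun f hf n hn => by
      have : ¬ n < 0 := fun hlt => hn (hf n hlt)
      exact ⟨⟨n.toNat⟩, by simp; omega⟩)
    (fun r P θ h4 h5 p hp l => (h4 _).1 ⟨p, hp, rfl⟩ l)
    (fun v m hm => v.2.1 m hm) (fun m hm => cvPi_mem₀ h hm)
  chart₁ := cv_flatChart h (fun n : ULift.{u} ℕ => (X.w : X.B) ^ n.down)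
    (fun n => -(n.down : ℤ)) (fun a b hn => ULift.down_injective (by simpa using hn))
    (fun n => by rw [map_pow, X.res_w, T_pow]; simp) Q.M₁
    (fun n m _ hm => Q.smul₁ _ (X.B₁.pow_mem X.w_mem n.down) _ hm) (RegInf k 0)
    (fun f hf n hn => by
      have : ¬ 0 < n := fun hlt => hn (hf n hlt)
      exact ⟨⟨(-n).toNat⟩, by simp; omega⟩)
    (fun r P θ h4 h5 p hp l => (h5 _).1 ⟨p, hp, rfl⟩ l)
    (fun v m hm => v.2.2 m hm) (fun m hm => cvPi_mem₁ h hm)

/-- Every deformation over an object of `art_1` is induced from the universal one. -/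
theorem cv_induced (h : Represents Q g) {Γ : Type u} [Ring Γ] [Algebra k Γ] {ε : Γ →ₐ[k] k}
    (hε : IsArt ε) (D : NCDef X ε) : ∃ f : cvEnd Q →ₐ[k] Γ, Induced f (cvDef h) D := by
  obtain ⟨e, he₀, he₁, hπ⟩ := D.exists_one hε
  obtain ⟨v, hv, hve⟩ := h.exists_map (D.loewy hε) he₀ he₁
  have hex : ∀ l : cvEnd Q, ∃! γ : Γ, v ((l : Module.End X.B Q.M) g) = D.ρ γ e := fun l =>
    D.exists_unique_gamma hε he₀ he₁ hπ (hv.1 _ (l.2.1 g h.2.1)) (hv.2 _ (l.2.2 g h.2.2.1))
  choose f hf huniq using hex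
  have hst₀ : ∀ γ : Γ, ∀ m ∈ D.F.M₀, D.ρ γ m ∈ D.F.M₀ := D.chart₀.stable
  have hst₁ : ∀ γ : Γ, ∀ m ∈ D.F.M₁, D.ρ γ m ∈ D.F.M₁ := D.chart₁.stable
  have hkey : ∀ (l : cvEnd Q) (m : Q.M), v ((l : Module.End X.B Q.M) m) = D.ρ (f l) (v m) := by
    intro l m
    have := h.map_ext (D.loewy hε) (u := v.comp (l : Module.End X.B Q.M))
      (v := (D.ρ (f l)).comp v)
      ⟨fun m hm => hv.1 _ (l.2.1 m hm), fun m hm => hv.2 _ (l.2.2 m hm)⟩
      ⟨fun m hm => hst₀ _ _ (hv.1 m hm), fun m hm => hst₁ _ _ (hv.2 m hm)⟩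
      (by rw [LinearMap.comp_apply, LinearMap.comp_apply, hve]; exact hf l)
    exact LinearMap.congr_fun this m
  have hu : ∀ (l : cvEnd Q) (γ : Γ), v ((l : Module.End X.B Q.M) g) = D.ρ γ e → f l = γ :=
    fun l γ hγ => (huniq l γ hγ).symm
  let F : cvEnd Q →ₐ[k] Γ :=
    { toFun := f
      map_one' := hu 1 1 (by
        rw [map_one]
        exact hve)
      map_mul' := fun l l' => hu _ _ (by
        change v ((l : Module.End X.B Q.M) ((l' : Module.End X.B Q.M) g)) = _
        rw [hkey, hf, map_mul]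
        rfl)
      map_zero' := hu 0 0 (by
        rw [map_zero]
        exact map_zero v)
      map_add' := fun l l' => hu _ _ (by
        change v ((l : Module.End X.B Q.M) g + (l' : Module.End X.B Q.M) g) = _
        rw [map_add, hf, hf, map_add]
        rfl)
      commutes' := fun c => hu _ _ (by
        change v (algebraMap k X.B c • g) = _
        rw [map_smul, hve, D.ρ_algebraMap]) }
  refine ⟨F, v, hv.1, hv.2, hkey, fun m => ?_⟩
  -- over `𝒪_C`
  have h1 : IsSheafMap (E := D.F) (F := OC X)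
      { toFun := D.π, map_add' := map_add D.π, map_smul' := D.π_smul } := by
    refine ⟨fun m hm => ?_, fun m hm => ?_⟩
    · exact (D.chart₀.image _).1 ⟨m, hm, rfl⟩
    · exact (D.chart₁.image _).1 ⟨m, hm, rfl⟩
  have h2 := cv_eq_smul_tau h (LinearMap.comp
      ({ toFun := D.π, map_add' := map_add D.π, map_smul' := D.π_smul } :
        D.F.M →ₗ[X.B] (OC X).M) v)
    ⟨fun m hm => h1.1 _ (hv.1 m hm), fun m hm => h1.2 _ (hv.2 m hm)⟩ m
  have h3 : D.π (v m) = C ((D.π (v g)).coeff 0) * cvPi h m := h2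
  rw [hve, hπ] at h3
  have h4 : C ((1 : k[T;T⁻¹]).coeff 0) * cvPi h m = cvPi h m := by
    rw [← T_zero, T_apply, if_pos rfl, map_one, one_mul]
  exact h3.trans h4

end Pool.Agent.DWC
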