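import Pool.Agent.H17CV.End

/-!
# The augmentation of the endomorphism algebra of the universal sheaf
-/

set_option autoImplicit false

open LaurentPolynomial

universe u

namespace Pool.Agent.DWC

variable {k : Type u} [Field k] {X : Nbhd k} {Q : Sh X} {g : Q.M}

theorem Represents.exists_map (h : Represents Q g) {E : Sh X} (hE : ∃ n : ℕ, Loewy E 0 n)
    {e : E.M} (h₀ : e ∈ E.M₀) (h₁ : e ∈ E.M₁) :
    ∃ u : Q.M →ₗ[X.B] E.M, IsSheafMap u ∧ u g = e := by
  obtain ⟨n, hn⟩ := hE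
  exact (h.2.2.2 E ⟨n, hn⟩ hn.acycT ⟨n, fun c hc m => hn.cv_pow_smul hc m⟩ e h₀ h₁).exists

theorem Represents.map_ext (h : Represents Q g) {E : Sh X} (hE : ∃ n : ℕ, Loewy E 0 n)
    {u v : Q.M →ₗ[X.B] E.M} (hu : IsSheafMap u) (hv : IsSheafMap v) (huv : u g = v g) : u = v := by
  obtain ⟨n, hn⟩ := hE
  exact (h.2.2.2 E ⟨n, hn⟩ hn.acycT ⟨n, fun c hc m => hn.cv_pow_smul hc m⟩ (v g)
    (hv.1 g h.2.1) (hv.2 g h.2.2.1)).unique ⟨hu, huv⟩ ⟨hv, rfl⟩

/-- the underlying Laurent polynomial of a section of `𝒪_C` -/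
noncomputable def OCv (X : Nbhd k) : (OC X).M →+ k[T;T⁻¹] := AddMonoidHom.id k[T;T⁻¹]

theorem OCv_smul (b : X.B) (f : (OC X).M) : OCv X (b • f) = X.res b * OCv X f := rfl

theorem OCv_inj {f f' : (OC X).M} (h : OCv X f = OCv X f') : f = f' := h

/-- the map `Q → 𝒪_C` which maps `g` to `1` -/
noncomputable def cvTau (h : Represents Q g) : Q.M →ₗ[X.B] (OC X).M :=
  (h.exists_map ⟨1, OC_loewy X⟩ (e := (1 : k[T;T⁻¹])) cv_one_Reg0 cv_one_RegInf).choose

theorem cvTau_map (h : Represents Q g) : IsSheafMap (cvTau h) :=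
  (h.exists_map ⟨1, OC_loewy X⟩ (e := (1 : k[T;T⁻¹])) cv_one_Reg0 cv_one_RegInf).choose_spec.1

/-- the map `Q → 𝒪_C` -/
noncomputable def cvPi (h : Represents Q g) : Q.M →+ k[T;T⁻¹] :=
  (OCv X).comp (cvTau h).toAddMonoidHom

theorem cvPi_g (h : Represents Q g) : cvPi h g = 1 :=
  (h.exists_map ⟨1, OC_loewy X⟩ (e := (1 : k[T;T⁻¹])) cv_one_Reg0 cv_one_RegInf).choose_spec.2

theorem cvPi_smul (h : Represents Q g) (b : X.B) (m : Q.M) :
    cvPi h (b • m) = X.res b * cvPi h m := by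
  change OCv X (cvTau h (b • m)) = _
  rw [map_smul, OCv_smul]
  rfl

theorem cvPi_mem₀ (h : Represents Q g) {m : Q.M} (hm : m ∈ Q.M₀) : cvPi h m ∈ Reg0 k :=
  (cvTau_map h).1 m hm

theorem cvPi_mem₁ (h : Represents Q g) {m : Q.M} (hm : m ∈ Q.M₁) : cvPi h m ∈ RegInf k 0 :=
  (cvTau_map h).2 m hm

/-- Every map `Q → 𝒪_C` is a multiple of `τ`. -/
theorem cv_eq_smul_tau (h : Represents Q g) (u : Q.M →ₗ[X.B] (OC X).M) (hu : IsSheafMap u)
    (m : Q.M) : OCv X (u m) = C ((OCv X (u g)).coeff 0) * cvPi h m := by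
  have h1 : OCv X (u g) = C ((OCv X (u g)).coeff 0) :=
    cv_const (hu.1 g h.2.1) (hu.2 g h.2.2.1)
  have h2 := h.map_ext ⟨1, OC_loewy X⟩ (u := u)
    (v := algebraMap k X.B ((OCv X (u g)).coeff 0) • cvTau h) hu
    ⟨fun m hm => cv_algebraMap_smul_mem₀ ((cvTau_map h).1 m hm),
      fun m hm => cv_algebraMap_smul_mem₁ ((cvTau_map h).2 m hm)⟩ (OCv_inj (by
        rw [LinearMap.smul_apply, OCv_smul, AlgHom.commutes]
        change _ = _ * cvPi h g
        rw [cvPi_g, mul_one]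
        exact h1))
  conv_lhs => rw [h2]
  rw [LinearMap.smul_apply, OCv_smul, AlgHom.commutes]
  rfl

theorem cvPi_end (h : Represents Q g) (u : cvEnd Q) (m : Q.M) :
    cvPi h ((u : Module.End X.B Q.M) m) =
      C ((cvPi h ((u : Module.End X.B Q.M) g)).coeff 0) * cvPi h m :=
  cv_eq_smul_tau h ((cvTau h).comp (u : Module.End X.B Q.M))
    ⟨fun m hm => (cvTau_map h).1 _ (u.2.1 m hm), fun m hm => (cvTau_map h).2 _ (u.2.2 m hm)⟩ m

/-- the augmentation -/
noncomputable def cvEps (h : Represents Q g) : cvEnd Q →ₐ[k] k where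
  toFun u := (cvPi h ((u : Module.End X.B Q.M) g)).coeff 0
  map_one' := by
    change (cvPi h g).coeff 0 = 1
    rw [cvPi_g, ← T_zero, T_apply, if_pos rfl]
  map_mul' u v := by
    change (cvPi h ((u : Module.End X.B Q.M) ((v : Module.End X.B Q.M) g))).coeff 0 = _
    rw [cvPi_end h u, cv_C_mul_coeff]
  map_zero' := by
    change (cvPi h (0 : Q.M)).coeff 0 = 0
    rw [map_zero (cvPi h)]
    rfl
  map_add' u v := by
    change (cvPi h ((u : Module.End X.B Q.M) g + (v : Module.End X.B Q.M) g)).coeff 0 = _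
    rw [map_add]
    rfl
  commutes' c := by
    change (cvPi h (algebraMap k X.B c • g)).coeff 0 = c
    rw [cvPi_smul, cvPi_g, mul_one, AlgHom.commutes]
    change (C c : k[T;T⁻¹]).coeff 0 = c
    simp

theorem cvPi_end' (h : Represents Q g) (u : cvEnd Q) (m : Q.M) :
    cvPi h ((u : Module.End X.B Q.M) m) = C (cvEps h u) * cvPi h m := cvPi_end h u m

end Pool.Agent.DWC
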